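import Mathlib

/-!
# Limit chain points of a semiflow and of its time-`T` map
-/

set_option autoImplicit false

open Filter Topology Set Metric

namespace Pool.Agent.Results.MP_f2fc76_an.FlowAndTimeTMap

variable {X : Type*} [MetricSpace X]

/-- A semi-flow of continuous maps (only the times `t ≥ 0` are used). No continuity in `t`. -/
structure IsSemiflow (F : ℝ → X → X) : Prop where
  cont : ∀ t, 0 ≤ t → Continuous (F t)
  zero : ∀ x, F 0 x = x
  add : ∀ s t, 0 ≤ s → 0 ≤ t → ∀ x, F (s + t) x = F s (F t x)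

/-- Joint continuity on `[0, ∞) × X`. -/
def JointlyContinuous (F : ℝ → X → X) : Prop :=
  ContinuousOn (fun p : ℝ × X => F p.1 p.2) (Ici 0 ×ˢ univ)

/-- `G` is a (compact) global attractor. -/
def IsGlobalAttractor (F : ℝ → X → X) (G : Set X) : Prop :=
  IsCompact G ∧ (∀ t, 0 ≤ t → F t '' G = G) ∧
    ∀ K : Set X, IsCompact K → ∀ δ > 0, ∃ τ, ∀ t, τ ≤ t → 0 ≤ t →
      F t '' K ⊆ {x | infDist x G < δ}

/-- An `ε`-chain of the map `g` from `x` to `y` in `K` of duration `n`. -/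
def MapChain (g : X → X) (K : Set X) (ε : ℝ) (x y : X) (n : ℕ) : Prop :=
  ∃ z : ℕ → X, z 0 = x ∧ z n = y ∧ 1 ≤ n ∧ (∀ i ≤ n, z i ∈ K) ∧
    ∀ i < n, dist (g (z i)) (z (i + 1)) < ε

/-- `z` is piecewise continuous on `[0, τ]`: there is a finite subdivision such that on each open
piece `z` agrees with a function continuous on the closed piece. -/
def PiecewiseContinuous (z : ℝ → X) (τ : ℝ) : Prop :=
  ∃ (n : ℕ) (c : ℕ → ℝ) (g : ℕ → ℝ → X), c 0 = 0 ∧ c n = τ ∧ (∀ i < n, c i < c (i + 1)) ∧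
    ∀ i < n, ContinuousOn (g i) (Icc (c i) (c (i + 1))) ∧
      ∀ t ∈ Ioo (c i) (c (i + 1)), z t = g i t

/-- An `ε`-chain of the semi-flow `F` from `x` to `y` in `K` of duration `τ`. -/
def FlowChain (F : ℝ → X → X) (K : Set X) (ε : ℝ) (x y : X) (τ : ℝ) : Prop :=
  ∃ z : ℝ → X, z 0 = x ∧ z τ = y ∧ 1 ≤ τ ∧ PiecewiseContinuous z τ ∧ (∀ t ∈ Icc 0 τ, z t ∈ K) ∧
    ∀ t₀ t₁, 0 ≤ t₀ → t₀ < t₁ → t₁ ≤ τ → t₁ - t₀ ≤ 1 → dist (F (t₁ - t₀) (z t₀)) (z t₁) < ε

/-- `y` is a limit chain point of `x` for the map `g`. -/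
def LimitChainMap (g : X → X) (x y : X) : Prop :=
  ∃ K : Set X, IsCompact K ∧ ∃ D : ℝ → ℕ, (∀ ε > 0, MapChain g K ε x y (D ε)) ∧
    Tendsto D (𝓝[>] 0) atTop

/-- `y` is a limit chain point of `x` for the semi-flow `F`. -/
def LimitChainFlow (F : ℝ → X → X) (x y : X) : Prop :=
  ∃ K : Set X, IsCompact K ∧ ∃ D : ℝ → ℝ, (∀ ε > 0, FlowChain F K ε x y (D ε)) ∧
    Tendsto D (𝓝[>] 0) atTop

/-! ### Jointly continuous semi-flows -/

section joint

variable {F : ℝ → X → X}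

theorem compact_tube (hJ : JointlyContinuous F) {K : Set X} (hK : IsCompact K) (L : ℝ) :
    IsCompact ((fun p : ℝ × X => F p.1 p.2) '' (Icc 0 L ×ˢ K)) := by
  refine (isCompact_Icc.prod hK).image_of_continuousOn (hJ.mono ?_)
  exact prod_mono Icc_subset_Ici_self (subset_univ _)

theorem uniform (hJ : JointlyContinuous F) {C : Set X} (hC : IsCompact C) (L : ℝ) {ε : ℝ}
    (hε : 0 < ε) : ∃ δ > 0, ∀ s ∈ Icc 0 L, ∀ s' ∈ Icc 0 L, ∀ u ∈ C, ∀ u' ∈ C,
      dist s s' < δ → dist u u' < δ → dist (F s u) (F s' u') < ε := by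
  have h1 : UniformContinuousOn (fun p : ℝ × X => F p.1 p.2) (Icc 0 L ×ˢ C) :=
    (isCompact_Icc.prod hC).uniformContinuousOn_of_continuous
      (hJ.mono (prod_mono Icc_subset_Ici_self (subset_univ _)))
  obtain ⟨δ, hδ, h⟩ := Metric.uniformContinuousOn_iff.1 h1 ε hε
  refine ⟨δ, hδ, fun s hs s' hs' u hu u' hu' h2 h3 => ?_⟩
  exact h (s, u) ⟨hs, hu⟩ (s', u') ⟨hs', hu'⟩ (by
    rw [Prod.dist_eq]
    exact max_lt h2 h3)

/-- Long time estimate along a chain of the semi-flow. -/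
theorem long_flow (hF : IsSemiflow F) (hJ : JointlyContinuous F) {K : Set X} (hK : IsCompact K)
    (n : ℕ) : ∀ η > 0, ∃ δ > 0, ∀ (z : ℝ → X) (τ : ℝ), (∀ t ∈ Icc 0 τ, z t ∈ K) →
      (∀ t₀ t₁, 0 ≤ t₀ → t₀ < t₁ → t₁ ≤ τ → t₁ - t₀ ≤ 1 →
        dist (F (t₁ - t₀) (z t₀)) (z t₁) < δ) →
      ∀ t₀ t₁, 0 ≤ t₀ → t₀ ≤ t₁ → t₁ ≤ τ → t₁ - t₀ ≤ n →
        dist (F (t₁ - t₀) (z t₀)) (z t₁) < η := by
  induction n with
  | zero =>
    intro η hη
    refine ⟨1, one_pos, fun z τ _ _ t₀ t₁ _ h2 _ h4 => ?_⟩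
    have : t₁ = t₀ := by
      push_cast at h4
      linarith
    rw [this, sub_self, hF.zero, dist_self]
    exact hη
  | succ n ih =>
    intro η hη
    let C := (fun p : ℝ × X => F p.1 p.2) '' (Icc (0 : ℝ) n ×ˢ K)
    have hC : IsCompact C := compact_tube hJ hK n
    have hKC : K ⊆ C := fun u hu => ⟨(0, u), ⟨⟨le_rfl, Nat.cast_nonneg n⟩, hu⟩, hF.zero u⟩
    obtain ⟨δ₁, hδ₁, h₁⟩ := uniform hJ hC 1 (half_pos hη)
    obtain ⟨δ₂, hδ₂, h₂⟩ := ih δ₁ hδ₁
    refine ⟨min δ₂ (η / 2), lt_min hδ₂ (half_pos hη), fun z τ hz hc t₀ t₁ h0 h01 h1 hn => ?_⟩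
    have hc₂ : ∀ t₀ t₁, 0 ≤ t₀ → t₀ < t₁ → t₁ ≤ τ → t₁ - t₀ ≤ 1 →
        dist (F (t₁ - t₀) (z t₀)) (z t₁) < δ₂ := fun a b h h' h'' h''' =>
      (hc a b h h' h'' h''').trans_le (min_le_left _ _)
    rcases le_or_gt (t₁ - t₀) 1 with h | h
    · rcases h01.eq_or_lt with rfl | hlt
      · rw [sub_self, hF.zero, dist_self]
        exact hη
      · have := (hc t₀ t₁ h0 hlt h1 h).trans_le (min_le_right _ _)
        linarith
    · have hs : t₀ ≤ t₁ - 1 := by linarith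
      have hsn : t₁ - 1 - t₀ ≤ n := by
        push_cast at hn
        linarith
      have e1 := h₂ z τ hz hc₂ t₀ (t₁ - 1) h0 hs (by linarith) hsn
      have m1 : F (t₁ - 1 - t₀) (z t₀) ∈ C :=
        ⟨(t₁ - 1 - t₀, z t₀), ⟨⟨by linarith, hsn⟩, hz t₀ ⟨h0, by linarith⟩⟩, rfl⟩
      have m2 : z (t₁ - 1) ∈ C := hKC (hz _ ⟨by linarith, by linarith⟩)
      have e2 := h₁ 1 ⟨zero_le_one, le_rfl⟩ 1 ⟨zero_le_one, le_rfl⟩ _ m1 _ m2
        (by rw [dist_self]; exact hδ₁) e1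
      have e3 : F (t₁ - t₀) (z t₀) = F 1 (F (t₁ - 1 - t₀) (z t₀)) := by
        rw [← hF.add 1 _ zero_le_one (by linarith)]
        congr 1
        ring
      have e4 := (hc (t₁ - 1) t₁ (by linarith) (by linarith) h1 (by linarith)).trans_le
        (min_le_right _ _)
      rw [sub_sub_cancel] at e4
      rw [e3]
      calc dist (F 1 (F (t₁ - 1 - t₀) (z t₀))) (z t₁)
          ≤ dist (F 1 (F (t₁ - 1 - t₀) (z t₀))) (F 1 (z (t₁ - 1))) +
            dist (F 1 (z (t₁ - 1))) (z t₁) := dist_triangle _ _ _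
        _ < η / 2 + η / 2 := add_lt_add e2 e4
        _ = η := add_halves η

/-- Long time estimate along a chain of the time-`T` map. -/
theorem long_map (hF : IsSemiflow F) (hJ : JointlyContinuous F) {K : Set X} (hK : IsCompact K)
    {T : ℝ} (hT : 0 < T) (n : ℕ) : ∀ η > 0, ∃ δ > 0, ∀ (w : ℕ → X) (m : ℕ), (∀ i ≤ m, w i ∈ K) →
      (∀ i < m, dist (F T (w i)) (w (i + 1)) < δ) →
      ∀ i j, j ≤ n → i + j ≤ m → dist (F (j * T) (w i)) (w (i + j)) < η := by
  induction n with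
  | zero =>
    intro η hη
    refine ⟨1, one_pos, fun w m _ _ i j hj _ => ?_⟩
    rw [Nat.le_zero.1 hj]
    simp only [Nat.cast_zero, zero_mul, add_zero]
    rw [hF.zero, dist_self]
    exact hη
  | succ n ih =>
    intro η hη
    let C := (fun p : ℝ × X => F p.1 p.2) '' (Icc (0 : ℝ) (n * T) ×ˢ K)
    have hC : IsCompact C := compact_tube hJ hK _
    have hnT : 0 ≤ (n : ℝ) * T := by positivity
    have hKC : K ⊆ C := fun u hu => ⟨(0, u), ⟨⟨le_rfl, hnT⟩, hu⟩, hF.zero u⟩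
    obtain ⟨δ₁, hδ₁, h₁⟩ := uniform hJ hC T (half_pos hη)
    obtain ⟨δ₂, hδ₂, h₂⟩ := ih (min δ₁ η) (lt_min hδ₁ hη)
    refine ⟨min δ₂ (η / 2), lt_min hδ₂ (half_pos hη), fun w m hw hc i j hj hij => ?_⟩
    have hc₂ : ∀ i < m, dist (F T (w i)) (w (i + 1)) < δ₂ := fun i hi =>
      (hc i hi).trans_le (min_le_left _ _)
    rcases Nat.lt_or_ge j (n + 1) with hj' | hj'
    · exact (h₂ w m hw hc₂ i j (by omega) hij).trans_le (min_le_right _ _)
    · obtain rfl : j = n + 1 := by omega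
      have e1 := (h₂ w m hw hc₂ i n le_rfl (by omega)).trans_le (min_le_left _ _)
      have m1 : F (n * T) (w i) ∈ C := ⟨(n * T, w i), ⟨⟨hnT, le_rfl⟩, hw i (by omega)⟩, rfl⟩
      have m2 : w (i + n) ∈ C := hKC (hw _ (by omega))
      have e2 := h₁ T ⟨hT.le, le_rfl⟩ T ⟨hT.le, le_rfl⟩ _ m1 _ m2
        (by rw [dist_self]; exact hδ₁) e1
      have e3 : F ((n + 1 : ℕ) * T) (w i) = F T (F (n * T) (w i)) := by
        rw [← hF.add T _ hT.le hnT]
        congr 1
        push_cast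
        ring
      have e4 := (hc (i + n) (by omega)).trans_le (min_le_right _ _)
      rw [e3]
      calc dist (F T (F (n * T) (w i))) (w (i + (n + 1)))
          ≤ dist (F T (F (n * T) (w i))) (F T (w (i + n))) +
            dist (F T (w (i + n))) (w (i + (n + 1))) := dist_triangle _ _ _
        _ < η / 2 + η / 2 := add_lt_add e2 e4
        _ = η := add_halves η

theorem map_of_flow (hF : IsSemiflow F) (hJ : JointlyContinuous F) {T : ℝ} (hT : 0 < T)
    {x y : X} (h : LimitChainFlow F x y) : LimitChainMap (F T) x y := by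
  obtain ⟨K, hK, D, hD, hDt⟩ := h
  -- chains of the map for all `ε` of arbitrarily long duration
  have key : ∀ ε > 0, ∀ L : ℕ, ∃ n, L ≤ n ∧ MapChain (F T) K ε x y n := by
    intro ε hε L
    obtain ⟨n, hn⟩ := exists_nat_ge (2 * T)
    obtain ⟨δ₁, hδ₁, h₁⟩ := long_flow hF hJ hK n (ε / 2) (half_pos hε)
    obtain ⟨δ₂, hδ₂, h₂⟩ := uniform hJ hK n (half_pos hε)
    obtain ⟨M, hM⟩ := exists_nat_gt (T / δ₂)
    -- choose a chain
    have ht := hDt.eventually (eventually_ge_atTop ((L + M + 1 : ℕ) * T))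
    have hs : ∀ᶠ e : ℝ in 𝓝[>] 0, e < δ₁ :=
      (eventually_lt_nhds hδ₁).filter_mono nhdsWithin_le_nhds
    have hp : ∀ᶠ e : ℝ in 𝓝[>] 0, 0 < e := eventually_mem_nhdsWithin
    obtain ⟨e, ⟨hte, hse⟩, hpe⟩ := ((ht.and hs).and hp).exists
    obtain ⟨z, hz0, hzτ, _, _, hzK, hzc⟩ := hD e hpe
    set τ := D e with hτ
    have hmpos : (L + M + 1 : ℕ) ≤ ⌊τ / T⌋₊ := Nat.le_floor ((le_div_iff₀ hT).2 hte)
    obtain ⟨m, hm⟩ : ∃ m, m = ⌊τ / T⌋₊ := ⟨_, rfl⟩
    rw [← hm] at hmpos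
    have hτ0 : 0 ≤ τ := le_trans (by positivity) hte
    have hm1 : (m : ℝ) ≤ τ / T := hm ▸ Nat.floor_le (by positivity)
    have hm2 : τ / T < m + 1 := hm ▸ Nat.lt_floor_add_one _
    have hm0 : (0 : ℝ) < m := by
      have : 0 < m := by omega
      exact_mod_cast this
    have hg1 : T ≤ τ / m := by
      rw [le_div_iff₀ hm0]
      have := (le_div_iff₀ hT).1 hm1
      linarith
    have hg2 : τ / m ≤ T + T / m := by
      rw [div_le_iff₀ hm0, add_mul, div_mul_cancel₀ _ hm0.ne']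
      have := (div_lt_iff₀ hT).1 hm2
      linarith
    have hTm : T / m < δ₂ := by
      rw [div_lt_iff₀ hm0]
      have h1 := (div_lt_iff₀ hδ₂).1 hM
      have h2 : (M : ℝ) ≤ m := by
        have : M ≤ m := by omega
        exact_mod_cast this
      nlinarith
    have hTm1 : T / m ≤ T := div_le_self hT.le (by
      have : 1 ≤ m := by omega
      exact_mod_cast this)
    refine ⟨m, by omega, fun i => z (i * (τ / m)), ?_, ?_, by omega, ?_, ?_⟩
    · simp [hz0]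
    · change z (m * (τ / m)) = y
      rw [mul_div_cancel₀ _ hm0.ne']
      exact hzτ
    · intro i hi
      refine hzK _ ⟨by positivity, ?_⟩
      have : (i : ℝ) ≤ m := by exact_mod_cast hi
      calc (i : ℝ) * (τ / m) ≤ m * (τ / m) := mul_le_mul_of_nonneg_right this (by positivity)
        _ = τ := mul_div_cancel₀ _ hm0.ne'
    · intro i hi
      have hi' : ((i + 1 : ℕ) : ℝ) ≤ m := by exact_mod_cast hi
      have hle : ((i + 1 : ℕ) : ℝ) * (τ / m) ≤ τ := by
        calc ((i + 1 : ℕ) : ℝ) * (τ / m) ≤ m * (τ / m) :=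
              mul_le_mul_of_nonneg_right hi' (by positivity)
          _ = τ := mul_div_cancel₀ _ hm0.ne'
      have hsub : ((i + 1 : ℕ) : ℝ) * (τ / m) - i * (τ / m) = τ / m := by
        push_cast
        ring
      have hgn : τ / m ≤ n := by linarith
      have hmem : z (i * (τ / m)) ∈ K := hzK _ ⟨by positivity, by nlinarith⟩
      have e1 := h₁ z τ hzK (fun a b h h' h'' h''' => (hzc a b h h' h'' h''').trans hse)
        (i * (τ / m)) ((i + 1 : ℕ) * (τ / m)) (by positivity) (by linarith) hle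
        (by rw [hsub]; exact hgn)
      rw [hsub] at e1
      have e2 := h₂ T ⟨hT.le, by linarith⟩ (τ / m) ⟨by positivity, hgn⟩ _ hmem _ hmem
        (by rw [Real.dist_eq, abs_lt]; constructor <;> linarith)
        (by rw [dist_self]; exact hδ₂)
      calc dist (F T (z (i * (τ / m)))) (z ((i + 1 : ℕ) * (τ / m)))
          ≤ dist (F T (z (i * (τ / m)))) (F (τ / m) (z (i * (τ / m)))) +
            dist (F (τ / m) (z (i * (τ / m)))) (z ((i + 1 : ℕ) * (τ / m))) :=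
            dist_triangle _ _ _
        _ < ε / 2 + ε / 2 := add_lt_add e2 e1
        _ = ε := add_halves ε
  choose! N hN1 hN2 using key
  refine ⟨K, hK, fun ε => N ε ⌈1 / ε⌉₊, fun ε hε => hN2 ε hε _, ?_⟩
  rw [Filter.tendsto_atTop]
  intro L
  have hp : ∀ᶠ e : ℝ in 𝓝[>] 0, 0 < e := eventually_mem_nhdsWithin
  have hs : ∀ᶠ e : ℝ in 𝓝[>] 0, e < 1 / (L + 1) :=
    (eventually_lt_nhds (by positivity)).filter_mono nhdsWithin_le_nhds
  filter_upwards [hp, hs] with e he he'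
  refine le_trans ?_ (hN1 e he _)
  have h1 : (L : ℝ) ≤ 1 / e := by
    rw [le_div_iff₀ he]
    rw [lt_div_iff₀ (by positivity)] at he'
    nlinarith
  exact_mod_cast h1.trans (Nat.le_ceil _)

theorem flow_of_map (hF : IsSemiflow F) (hJ : JointlyContinuous F) {T : ℝ} (hT : 0 < T)
    {x y : X} (h : LimitChainMap (F T) x y) : LimitChainFlow F x y := by
  obtain ⟨K, hK, D, hD, hDt⟩ := h
  obtain ⟨K', hK'def⟩ : ∃ K', K' = (fun p : ℝ × X => F p.1 p.2) '' (Icc (0 : ℝ) T ×ˢ K) :=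
    ⟨_, rfl⟩
  have hK' : IsCompact K' := hK'def ▸ compact_tube hJ hK T
  have key : ∀ ε > 0, ∀ L : ℝ, ∃ τ, L ≤ τ ∧ FlowChain F K' ε x y τ := by
    intro ε hε L
    -- the number of jumps in a unit of time is at most `n`
    obtain ⟨n, hn⟩ := exists_nat_ge (1 / T + 1)
    let C := (fun p : ℝ × X => F p.1 p.2) '' (Icc (0 : ℝ) (n * T) ×ˢ K)
    have hC : IsCompact C := compact_tube hJ hK _
    have hKC : K ⊆ C := fun u hu => ⟨(0, u), ⟨⟨le_rfl, by positivity⟩, hu⟩, hF.zero u⟩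
    obtain ⟨δ₁, hδ₁, h₁⟩ := uniform hJ hC T hε
    obtain ⟨δ₂, hδ₂, h₂⟩ := long_map hF hJ hK hT n δ₁ hδ₁
    obtain ⟨M, hM⟩ := exists_nat_ge (max L 1 / T)
    have ht := hDt.eventually (eventually_ge_atTop M)
    have hs : ∀ᶠ e : ℝ in 𝓝[>] 0, e < δ₂ :=
      (eventually_lt_nhds hδ₂).filter_mono nhdsWithin_le_nhds
    have hp : ∀ᶠ e : ℝ in 𝓝[>] 0, 0 < e := eventually_mem_nhdsWithin
    obtain ⟨e, ⟨hte, hse⟩, hpe⟩ := ((ht.and hs).and hp).exists
    obtain ⟨w, hw0, hwm, hm1, hwK, hwc⟩ := hD e hpe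
    set m := D e with hm
    have hmT : max L 1 ≤ m * T := by
      have h1 : (M : ℝ) ≤ m := by exact_mod_cast hte
      have h2 := (div_le_iff₀ hT).1 hM
      nlinarith
    have hfl : ∀ t, 0 ≤ t → (⌊t / T⌋₊ : ℝ) * T ≤ t := by
      intro t ht
      have := Nat.floor_le (div_nonneg ht hT.le)
      exact (le_div_iff₀ hT).1 this
    have hfl' : ∀ t, t < (⌊t / T⌋₊ + 1 : ℝ) * T := by
      intro t
      have := Nat.lt_floor_add_one (t / T)
      exact (div_lt_iff₀ hT).1 this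
    have hflm : ∀ t, t ≤ m * T → ⌊t / T⌋₊ ≤ m := by
      intro t ht
      have : t / T ≤ m := (div_le_iff₀ hT).2 ht
      calc ⌊t / T⌋₊ ≤ ⌊(m : ℝ)⌋₊ := Nat.floor_mono this
        _ = m := Nat.floor_natCast m
    have hflmul : ∀ i : ℕ, ⌊(i * T) / T⌋₊ = i := by
      intro i
      rw [mul_div_cancel_right₀ _ hT.ne', Nat.floor_natCast]
    refine ⟨m * T, (le_max_left _ _).trans hmT,
      fun t => F (t - ⌊t / T⌋₊ * T) (w ⌊t / T⌋₊), ?_, ?_, (le_max_right _ _).trans hmT, ?_, ?_, ?_⟩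
    · simp [hF.zero, hw0]
    · change F (m * T - ⌊(m * T) / T⌋₊ * T) (w ⌊(m * T) / T⌋₊) = y
      rw [hflmul, sub_self, hF.zero, hwm]
    · refine ⟨m, fun i => i * T, fun i t => F (t - i * T) (w i), by simp, rfl, ?_, ?_⟩
      · intro i _
        change (i : ℝ) * T < ((i + 1 : ℕ) : ℝ) * T
        push_cast
        nlinarith
      · intro i _
        refine ⟨?_, ?_⟩
        · have hc : ContinuousOn (fun t : ℝ => ((t - i * T, w i) : ℝ × X))
              (Icc (i * T) ((i + 1 : ℕ) * T)) := by fun_prop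
          exact hJ.comp hc (fun t ht => ⟨sub_nonneg.2 ht.1, mem_univ _⟩)
        · rintro t ⟨h1, h2⟩
          have : ⌊t / T⌋₊ = i := by
            rw [Nat.floor_eq_iff (div_nonneg (le_trans (by positivity) h1.le) hT.le)]
            refine ⟨(le_div_iff₀ hT).2 h1.le, (div_lt_iff₀ hT).2 ?_⟩
            have h2' : t < ((i + 1 : ℕ) : ℝ) * T := h2
            push_cast at h2'
            exact h2'
          simp only [this]
    · rintro t ⟨h0, h1⟩
      rw [hK'def]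
      refine ⟨(t - ⌊t / T⌋₊ * T, w ⌊t / T⌋₊), ⟨⟨?_, ?_⟩, hwK _ (hflm t h1)⟩, rfl⟩
      · have := hfl t h0
        change 0 ≤ t - ⌊t / T⌋₊ * T
        linarith
      · have := hfl' t
        change t - ⌊t / T⌋₊ * T ≤ T
        linarith
    · intro t₀ t₁ h0 h01 h1 hle
      have ha := hfl t₀ h0
      have hb := hfl t₁ (h0.trans h01.le)
      have ha' := hfl' t₀
      have hb' := hfl' t₁
      have hab : ⌊t₀ / T⌋₊ ≤ ⌊t₁ / T⌋₊ :=
        Nat.floor_mono (div_le_div_of_nonneg_right h01.le hT.le)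
      obtain ⟨j, hj⟩ := Nat.exists_eq_add_of_le hab
      obtain ⟨a, ha0⟩ : ∃ a, a = ⌊t₀ / T⌋₊ := ⟨_, rfl⟩
      have hbm := hflm t₁ h1
      have hab' : ⌊t₁ / T⌋₊ = a + j := by rw [hj, ha0]
      rw [hab'] at hb hb' hbm
      rw [← ha0] at ha ha'
      push_cast at hb hb'
      have hjn : j ≤ n := by
        have h3 : (j : ℝ) * T < 1 + T := by nlinarith
        have h4 : (j : ℝ) < 1 / T + 1 := by
          rw [← mul_lt_mul_iff_left₀ hT, add_mul, div_mul_cancel₀ _ hT.ne']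
          linarith
        have : (j : ℝ) < n := lt_of_lt_of_le h4 hn
        exact_mod_cast this.le
      have hjT : (0 : ℝ) ≤ j * T := by positivity
      have e1 := h₂ w m hwK (fun i hi => (hwc i hi).trans hse) a j hjn hbm
      have m1 : F (j * T) (w a) ∈ C :=
        ⟨(j * T, w a), ⟨⟨hjT, mul_le_mul_of_nonneg_right (by exact_mod_cast hjn) hT.le⟩,
          hwK a (by omega)⟩, rfl⟩
      have m2 : w (a + j) ∈ C := hKC (hwK _ hbm)
      have hr : t₁ - (a + j : ℕ) * T ∈ Icc (0 : ℝ) T := by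
        push_cast
        constructor <;> linarith
      have e2 := h₁ _ hr _ hr _ m1 _ m2 (by rw [dist_self]; exact hδ₁) e1
      have e3 : F (t₁ - t₀) (F (t₀ - a * T) (w a)) =
          F (t₁ - (a + j : ℕ) * T) (F (j * T) (w a)) := by
        rw [← hF.add _ _ (by linarith) (by linarith), ← hF.add _ _ hr.1 hjT]
        congr 1
        push_cast
        ring
      change dist (F (t₁ - t₀) (F (t₀ - ⌊t₀ / T⌋₊ * T) (w ⌊t₀ / T⌋₊)))
        (F (t₁ - ⌊t₁ / T⌋₊ * T) (w ⌊t₁ / T⌋₊)) < ε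
      rw [← ha0, hab', e3]
      exact e2
  choose! N hN1 hN2 using key
  refine ⟨K', hK', fun ε => N ε (1 / ε), fun ε hε => hN2 ε hε _, ?_⟩
  rw [Filter.tendsto_atTop]
  intro L
  have hp : ∀ᶠ e : ℝ in 𝓝[>] 0, 0 < e := eventually_mem_nhdsWithin
  have hs : ∀ᶠ e : ℝ in 𝓝[>] 0, e < 1 / (|L| + 1) :=
    (eventually_lt_nhds (by positivity)).filter_mono nhdsWithin_le_nhds
  filter_upwards [hp, hs] with e he he'
  refine le_trans ?_ (hN1 e he _)
  rw [le_div_iff₀ he]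
  rw [lt_div_iff₀ (by positivity)] at he'
  have := le_abs_self L
  nlinarith [abs_nonneg L]

end joint

/-! ### Without continuity in time -/

/-- A `ℚ`-linear map `ℝ → ℚ` which vanishes at `1` and takes the value `1` at `√2`. -/
theorem exists_wild : ∃ φ : ℝ →ₗ[ℚ] ℚ, φ 1 = 0 ∧ φ √2 = 1 := by
  have hne : √2 ∉ Submodule.span ℚ {(1 : ℝ)} := by
    intro h
    obtain ⟨q, hq⟩ := Submodule.mem_span_singleton.1 h
    refine irrational_sqrt_two ⟨q, ?_⟩
    rw [← hq, Rat.smul_def, mul_one]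
  obtain ⟨f, hf, hf'⟩ := Submodule.exists_dual_map_eq_bot_of_notMem hne inferInstance
  have h1 : f 1 = 0 := by
    have : f 1 ∈ (Submodule.span ℚ {(1 : ℝ)}).map f :=
      Submodule.mem_map_of_mem (Submodule.mem_span_singleton_self 1)
    rw [hf'] at this
    exact (Submodule.mem_bot ℚ).1 this
  refine ⟨(f √2)⁻¹ • f, ?_, ?_⟩
  · rw [LinearMap.smul_apply, h1, smul_zero]
  · rw [LinearMap.smul_apply, smul_eq_mul, inv_mul_cancel₀ hf]

/-- Rotations of the circle by the angles `φ t`. -/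
noncomputable def rot (φ : ℝ →ₗ[ℚ] ℚ) (t : ℝ) (x : AddCircle (1 : ℝ)) : AddCircle (1 : ℝ) :=
  x + (((φ t : ℚ) : ℝ) : AddCircle (1 : ℝ))

theorem isSemiflow_rot (φ : ℝ →ₗ[ℚ] ℚ) : IsSemiflow (rot φ) := by
  refine ⟨fun t _ => ?_, fun x => ?_, fun s t _ _ x => ?_⟩
  · unfold rot
    fun_prop
  · simp [rot]
  · simp only [rot, map_add]
    push_cast
    rw [AddCircle.coe_add]
    abel

theorem attractor_rot (φ : ℝ →ₗ[ℚ] ℚ) : IsGlobalAttractor (rot φ) univ := by
  refine ⟨isCompact_univ, fun t _ => ?_, fun K _ δ hδ => ⟨0, fun t _ _ => ?_⟩⟩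
  · rw [image_univ, range_eq_univ]
    intro x
    exact ⟨x - (((φ t : ℚ) : ℝ) : AddCircle (1 : ℝ)), by simp [rot]⟩
  · rintro x _
    change infDist x univ < δ
    rw [infDist_zero_of_mem (mem_univ x)]
    exact hδ

theorem map_chain_rot {φ : ℝ →ₗ[ℚ] ℚ} (h1 : φ 1 = 0) (x y : AddCircle (1 : ℝ)) :
    LimitChainMap (rot φ 1) x y := by
  obtain ⟨r, hr⟩ : ∃ r : ℝ, (r : AddCircle (1 : ℝ)) = y - x :=
    QuotientAddGroup.mk_surjective (y - x)
  have hid : ∀ x, rot φ 1 x = x := fun x => by simp [rot, h1]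
  refine ⟨univ, isCompact_univ, fun ε => ⌈(|r| + 1) / ε⌉₊ + 1, fun ε hε => ?_, ?_⟩
  · beta_reduce
    obtain ⟨n, hn⟩ : ∃ n, n = ⌈(|r| + 1) / ε⌉₊ + 1 := ⟨_, rfl⟩
    rw [← hn]
    have hn0 : (0 : ℝ) < n := by rw [hn]; positivity
    have hn1 : (|r| + 1) / ε ≤ n := by
      rw [hn]
      push_cast
      linarith [Nat.le_ceil ((|r| + 1) / ε)]
    refine ⟨fun i => x + ((i * (r / n) : ℝ) : AddCircle (1 : ℝ)), by simp, ?_, by omega,
      fun _ _ => mem_univ _, fun i _ => ?_⟩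
    · change x + ((n * (r / n) : ℝ) : AddCircle (1 : ℝ)) = y
      rw [mul_div_cancel₀ _ hn0.ne', hr]
      abel
    · rw [hid]
      have h2 : ((((i + 1 : ℕ) : ℝ) * (r / n) : ℝ) : AddCircle (1 : ℝ)) =
          ((i * (r / n) : ℝ) : AddCircle (1 : ℝ)) + ((r / n : ℝ) : AddCircle (1 : ℝ)) := by
        rw [← AddCircle.coe_add]
        congr 1
        push_cast
        ring
      beta_reduce
      rw [h2, dist_eq_norm]
      have h3 : x + ((i * (r / n) : ℝ) : AddCircle (1 : ℝ)) -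
          (x + (((i * (r / n) : ℝ) : AddCircle (1 : ℝ)) + ((r / n : ℝ) : AddCircle (1 : ℝ)))) =
          -((r / n : ℝ) : AddCircle (1 : ℝ)) := by abel
      rw [h3, norm_neg]
      refine (QuotientAddGroup.norm_mk_le_norm).trans_lt ?_
      rw [Real.norm_eq_abs, abs_div, abs_of_pos hn0, div_lt_iff₀ hn0]
      have := (div_le_iff₀ hε).1 hn1
      linarith
  · rw [Filter.tendsto_atTop]
    intro L
    have hp : ∀ᶠ e : ℝ in 𝓝[>] 0, 0 < e := eventually_mem_nhdsWithin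
    have hs : ∀ᶠ e : ℝ in 𝓝[>] 0, e < 1 / (L + 1) :=
      (eventually_lt_nhds (by positivity)).filter_mono nhdsWithin_le_nhds
    filter_upwards [hp, hs] with e he he'
    have h2 : (L : ℝ) ≤ (|r| + 1) / e := by
      rw [le_div_iff₀ he]
      rw [lt_div_iff₀ (by positivity)] at he'
      nlinarith [abs_nonneg r]
    have h3 : L ≤ ⌈(|r| + 1) / e⌉₊ := by exact_mod_cast h2.trans (Nat.le_ceil _)
    omega

theorem no_flow_chain_rot {φ : ℝ →ₗ[ℚ] ℚ} (h1 : φ 1 = 0) (h2 : φ √2 = 1)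
    (x y : AddCircle (1 : ℝ)) : ¬ LimitChainFlow (rot φ) x y := by
  rintro ⟨K, _, D, hD, _⟩
  obtain ⟨z, _, _, hτ, ⟨n, c, g, hc0, hcn, hcl, hg⟩, _, hz⟩ := hD (1 / 8) (by norm_num)
  have hn : 0 < n := by
    rcases Nat.eq_zero_or_pos n with rfl | h
    · rw [hc0] at hcn
      linarith
    · exact h
  have h01 := hcl 0 hn
  rw [hc0, zero_add] at h01
  have hc1 : c 1 ≤ D (1 / 8) := by
    have hmono : ∀ k, k ≤ n → 1 ≤ k → c 1 ≤ c k := by
      intro k hk h1k
      induction k with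
      | zero => omega
      | succ k ih =>
        rcases Nat.eq_zero_or_pos k with rfl | hk0
        · exact le_rfl
        · exact (ih (by omega) hk0).trans (hcl k (by omega)).le
    rw [← hcn]
    exact hmono n le_rfl hn
  obtain ⟨hgc, hgz⟩ := hg 0 hn
  rw [hc0, zero_add] at hgc hgz
  -- a point of the first piece
  set t₀ := c 1 / 2 with ht₀
  have ht₀m : t₀ ∈ Ioo 0 (c 1) := ⟨by positivity, by linarith⟩
  have hcont : ContinuousAt (g 0) t₀ :=
    hgc.continuousAt (Icc_mem_nhds ht₀m.1 ht₀m.2)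
  obtain ⟨δ, hδ, hδ'⟩ := Metric.continuousAt_iff.1 hcont (1 / 8) (by norm_num)
  set η := min δ (min 1 (c 1 / 2)) with hη
  have hη0 : 0 < η := lt_min hδ (lt_min one_pos (by positivity))
  have hη1 : η ≤ 1 := (min_le_right _ _).trans (min_le_left _ _)
  have hη2 : η ≤ c 1 / 2 := (min_le_right _ _).trans (min_le_right _ _)
  have hη3 : η ≤ δ := min_le_left _ _
  obtain ⟨p, hp1, hp2⟩ := exists_rat_btwn (show -(√2 / 2) < -(√2 / 2) + η by linarith)
  set s : ℝ := (1 / 2 : ℚ) • √2 + (p : ℚ) • (1 : ℝ) with hs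
  have hs' : s = √2 / 2 + p := by
    rw [hs, Rat.smul_def, Rat.smul_def]
    push_cast
    ring
  have hs0 : 0 < s := by rw [hs']; linarith
  have hsη : s < η := by rw [hs']; linarith
  have hφs : φ s = 1 / 2 := by
    rw [hs, map_add, map_smul, map_smul, h1, h2]
    norm_num
  have e1 := hz t₀ (t₀ + s) ht₀m.1.le (by linarith) (by linarith) (by linarith)
  rw [add_sub_cancel_left] at e1
  have e2 : dist (g 0 (t₀ + s)) (g 0 t₀) < 1 / 8 := by
    apply hδ'
    rw [Real.dist_eq, add_sub_cancel_left, abs_of_pos hs0]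
    linarith
  rw [← hgz t₀ ht₀m, ← hgz (t₀ + s) ⟨by linarith [ht₀m.1], by linarith⟩] at e2
  have e3 : dist (rot φ s (z t₀)) (z t₀) < 1 / 4 := by
    calc dist (rot φ s (z t₀)) (z t₀) ≤ dist (rot φ s (z t₀)) (z (t₀ + s)) +
          dist (z (t₀ + s)) (z t₀) := dist_triangle _ _ _
      _ < 1 / 8 + 1 / 8 := add_lt_add e1 e2
      _ = 1 / 4 := by norm_num
  have e4 : dist (rot φ s (z t₀)) (z t₀) = 1 / 2 := by
    rw [dist_eq_norm]
    unfold rot
    rw [add_sub_cancel_left, hφs]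
    have := AddCircle.norm_half_period_eq (p := (1 : ℝ))
    simpa using this
  rw [e4] at e3
  norm_num at e3

/-- (1) If the semi-flow is jointly continuous then, for every `T > 0`, the limit chain relations of
the semi-flow and of its time-`T` map are equal (with or without a compact global attractor).
(2) If the maps `F t` are only required to be continuous for each `t`, this fails: there are such
rotations of the circle (a compact global attractor) for which every `y` is a limit chain point of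
every `x` for the time-one map, and no `y` is a limit chain point of any `x` for the semi-flow. -/
theorem result :
    (∀ (X : Type*) [MetricSpace X] (F : ℝ → X → X), IsSemiflow F → JointlyContinuous F →
      ∀ T > 0, ∀ x y : X, LimitChainFlow F x y ↔ LimitChainMap (F T) x y) ∧
    ∃ F : ℝ → AddCircle (1 : ℝ) → AddCircle (1 : ℝ), IsSemiflow F ∧ IsGlobalAttractor F univ ∧
      ∀ x y, LimitChainMap (F 1) x y ∧ ¬ LimitChainFlow F x y := by
  refine ⟨fun X _ F hF hJ T hT x y => ⟨map_of_flow hF hJ hT, flow_of_map hF hJ hT⟩, ?_⟩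
  obtain ⟨φ, h1, h2⟩ := exists_wild
  exact ⟨rot φ, isSemiflow_rot φ, attractor_rot φ, fun x y =>
    ⟨map_chain_rot h1 x y, no_flow_chain_rot h1 h2 x y⟩⟩

end Pool.Agent.Results.MP_f2fc76_an.FlowAndTimeTMap
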